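import Mathlib
import Pool.Agent.H999R2.KSat.CV5
import Pool.Agent.H999R2.KSat.SA
import Pool.Agent.H999R2.KSat.SM
import Pool.Agent.H999R2.KSat.TL3

/-! Assembly of the starting development `H999R2/KSat`: the satisfiability threshold. -/

set_option autoImplicit false

namespace Pool.Agent.H541R3.KS

open Finset Filter Pool.Agent.H999R2.KSat

theorem half {n : ℕ} (hn : 0 < n) (a : Asg n) :
    E (fun l : Lit n => ind (a l.1 ≠ l.2)) = 1 / 2 := by
  haveI : Nonempty (Fin n) := ⟨⟨0, hn⟩⟩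
  rw [E_prod (fun (i : Fin n) (b : Bool) => ind (a i ≠ b))]
  have h : ∀ i : Fin n, E (fun b : Bool => ind (a i ≠ b)) = 1 / 2 := by
    intro i
    unfold E
    rw [Fintype.sum_bool, Fintype.card_bool]
    cases hi : a i <;> simp [ind]
  rw [E_congr h, E_const]

theorem one_clause {n : ℕ} (k : ℕ) (hn : 0 < n) (a : Asg n) :
    E (fun c : Cl n k => ind (sc a c)) = 1 - (1 / 2) ^ k := by
  haveI : Nonempty (Fin n) := ⟨⟨0, hn⟩⟩
  have h1 : ∀ c : Cl n k, ind (sc a c) = 1 - ∏ p, ind (a (c p).1 ≠ (c p).2) := by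
    intro c
    rw [← ind_forall, ← ind_not]
    refine ind_congr ?_
    unfold sc
    push Not
    rfl
  rw [E_congr h1, E_sub, E_const, E_pi (fun _ (l : Lit n) => ind (a l.1 ≠ l.2))]
  rw [half hn a, Finset.prod_const, Finset.card_univ, Fintype.card_fin]

theorem first_moment (n k m : ℕ) (hn : 0 < n) :
    ps n k m ≤ 2 ^ n * (1 - (1 / 2 : ℝ) ^ k) ^ m := by
  have h1 : ∀ F : Fin m → Cl n k, ind ((Sol F).Nonempty) ≤
      ∑ a : Asg n, ∏ j, ind (sc a (F j)) := by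
    intro F
    refine (ind_exists_le (fun a : Asg n => a ∈ Sol F)).trans (Finset.sum_le_sum fun a _ => ?_)
    rw [← ind_forall]
    exact le_refl _
  have h2 : ps n k m ≤ E (fun F : Fin m → Cl n k => ∑ a : Asg n, ∏ j, ind (sc a (F j))) :=
    E_mono h1
  refine h2.trans (le_of_eq ?_)
  rw [E_sum]
  have h3 : ∀ a : Asg n, E (fun F : Fin m → Cl n k => ∏ j, ind (sc a (F j))) =
      (1 - (1 / 2 : ℝ) ^ k) ^ m := by
    intro a
    rw [E_pi (fun _ (c : Cl n k) => ind (sc a c))]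
    rw [one_clause k hn a, Finset.prod_const, Finset.card_univ, Fintype.card_fin]
  rw [Finset.sum_congr rfl fun a _ => h3 a, Finset.sum_const, Finset.card_univ, nsmul_eq_mul]
  simp

theorem hyp (κ : ℕ) : Hyp κ (fun n m => ps n (κ + 1) m) where
  h0 n := sm_ps_zero n (κ + 1)
  hnn n m := sm_ps_nonneg n (κ + 1) m
  hanti n m := by
    rcases Nat.eq_zero_or_pos n with rfl | hn
    · have h : ps 0 (κ + 1) (m + 1) = 0 := by
        haveI : IsEmpty (Fin (m + 1) → Cl 0 (κ + 1)) := ⟨fun F => (F 0 0).1.elim0⟩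
        unfold ps E
        rw [Fintype.card_eq_zero]
        simp
      show ps 0 (κ + 1) (m + 1) ≤ ps 0 (κ + 1) m
      rw [h]
      exact sm_ps_nonneg _ _ _
    · exact sm_ps_succ_le n (κ + 1) m hn
  hfm := by
    refine ⟨1 - (1 / 2 : ℝ) ^ (κ + 1), ?_, ?_, fun n m hn => first_moment n (κ + 1) m hn⟩
    · have : (1 / 2 : ℝ) ^ (κ + 1) ≤ 1 := pow_le_one₀ (by norm_num) (by norm_num)
      linarith
    · have : (0 : ℝ) < (1 / 2 : ℝ) ^ (κ + 1) := by positivity
      linarith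
  hsharp Λ := sharp' κ Λ
  hone n m hn := super_one n (κ + 1) m hn (Nat.succ_pos κ)
  htwo N1 N2 m m1 m2 d h1 h2 hd hdm hm1 hm2 :=
    super_two N1 N2 (κ + 1) m m1 m2 d h1 h2 (Nat.succ_pos κ) hd hdm hm1 hm2

/-- Independent literals: the threshold exists. -/
theorem threshold (κ : ℕ) (hκ : 2 ≤ κ) :
    ∃ rs : ℝ, (∀ r, r < rs → Tendsto (fun n : ℕ => ps n (κ + 1) ⌊r * (n : ℝ)⌋₊) atTop (nhds 1)) ∧
      (∀ r, rs < r → Tendsto (fun n : ℕ => ps n (κ + 1) ⌊r * (n : ℝ)⌋₊) atTop (nhds 0)) :=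
  (hyp κ).convergence hκ

end Pool.Agent.H541R3.KS
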